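import Mathlib

/-!
MP_1ce445_co, windows above `1/2`, the case `m = 2`: `D = 1 - c`, `δ = 3 D - 1 = 2 - 3 c`, `D - δ = 2 c - 1`.
The hub family `y 1 + y 2 = δ`, `R² = D δ - y 1² - y 2²`, has the value `c * g2 c R` with `R` in `[r1 c, r2 c]`, and
`g2 c` is concave there: the maximum is at the zero of `q2 c` (the derivative is `q2 c r / (2 r³)`), or at an end.
-/

namespace Pool.Agent.Work.MP_1ce445_hub2

/-- left end: `r_1² = δ (D - δ)` -/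
noncomputable def r1 (c : ℝ) : ℝ := Real.sqrt ((2 - 3 * c) * (2 * c - 1))

/-- right end: `r_2² = δ (D - δ / 2)` -/
noncomputable def r2 (c : ℝ) : ℝ := Real.sqrt (c * (2 - 3 * c) / 2)

/-- the value of the hub system with hub mass `r`, divided by `c` -/
noncomputable def g2 (c r : ℝ) : ℝ :=
  ((2 - c - r) ^ 2 + (2 * c - 1 - r) ^ 2 * (2 - c * (2 - 3 * c) / r ^ 2)) / 4

/-- `2 r³` times the derivative of `g2 c` at `r` -/
def q2 (c r : ℝ) : ℝ := 3 * r ^ 3 * (r - c) - c * (2 - 3 * c) * (2 * c - 1) * (r - (2 * c - 1))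

theorem r1_sq {c : ℝ} (h1 : 5 / 8 ≤ c) (h2 : c < 2 / 3) : r1 c ^ 2 = (2 - 3 * c) * (2 * c - 1) :=
  Real.sq_sqrt (mul_nonneg (by linarith) (by linarith))

theorem r2_sq {c : ℝ} (h1 : 5 / 8 ≤ c) (h2 : c < 2 / 3) : r2 c ^ 2 = c * (2 - 3 * c) / 2 :=
  Real.sq_sqrt (div_nonneg (mul_nonneg (by linarith) (by linarith)) (by norm_num))

theorem r1_pos {c : ℝ} (h1 : 5 / 8 ≤ c) (h2 : c < 2 / 3) : 0 < r1 c :=
  Real.sqrt_pos.mpr (mul_pos (by linarith) (by linarith))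

theorem r2_pos {c : ℝ} (h1 : 5 / 8 ≤ c) (h2 : c < 2 / 3) : 0 < r2 c :=
  Real.sqrt_pos.mpr (div_pos (mul_pos (by linarith) (by linarith)) (by norm_num))

theorem r1_le_r2 {c : ℝ} (h1 : 5 / 8 ≤ c) (h2 : c < 2 / 3) : r1 c ≤ r2 c := by
  apply Real.sqrt_le_sqrt
  nlinarith

theorem r2_le {c : ℝ} (h1 : 5 / 8 ≤ c) (h2 : c < 2 / 3) : r2 c ≤ 1977 / 10000 := by
  have h := r2_sq h1 h2
  have hp := r2_pos h1 h2
  nlinarith

/-- the hub value is `c * g2 c R`, with `R` in `[r1 c, r2 c]` -/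
theorem m2_hub {c y z R : ℝ} (h1 : 5 / 8 ≤ c) (h2 : c < 2 / 3) (hy : 0 ≤ y) (hz : 0 ≤ z)
    (hyz : y + z = 2 - 3 * c) (hR : 0 < R) (hR2 : R ^ 2 = (1 - c) * (2 - 3 * c) - y ^ 2 - z ^ 2) :
    r1 c ≤ R ∧ R ≤ r2 c ∧
      (c - (y * (1 - c - y) / R - y)) * (c - (z * (1 - c - z) / R - z)) = g2 c R := by
  have hP : y * z = (R ^ 2 - (2 - 3 * c) * (2 * c - 1)) / 2 := by
    have h3 : (y + z) ^ 2 = (2 - 3 * c) ^ 2 := by rw [hyz]
    nlinarith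
  refine ⟨?_, ?_, ?_⟩
  · apply Real.sqrt_le_iff.mpr ⟨hR.le, ?_⟩
    have h4 : 0 ≤ y * z := mul_nonneg hy hz
    linarith
  · apply Real.le_sqrt_of_sq_le
    have h3 : (y + z) ^ 2 = (2 - 3 * c) ^ 2 := by rw [hyz]
    nlinarith [sq_nonneg (y - z)]
  · have key : (c * R - (y * (1 - c - y) - y * R)) * (c * R - (z * (1 - c - z) - z * R)) =
        c ^ 2 * R ^ 2 - c * R * ((1 - c) * (y + z) - ((y + z) ^ 2 - 2 * (y * z)) - (y + z) * R) +
          y * z * ((1 - c - R) ^ 2 - (1 - c - R) * (y + z) + y * z) := by ring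
    have e1 : c - (y * (1 - c - y) / R - y) = (c * R - (y * (1 - c - y) - y * R)) / R := by
      field_simp
    have e2 : c - (z * (1 - c - z) / R - z) = (c * R - (z * (1 - c - z) - z * R)) / R := by
      field_simp
    rw [e1, e2, div_mul_div_comm, key, hP, hyz]
    unfold g2
    field_simp
    ring

/-- the tangent inequality for `g2 c` -/
theorem m2_conc {c r s : ℝ} (h1 : 5 / 8 ≤ c) (h2 : c < 2 / 3) (hr : 0 < r) (hs : 0 < s)
    (hr2 : r ≤ r2 c) (hs2 : s ≤ r2 c) : g2 c r ≤ g2 c s + q2 c s / (2 * s ^ 3) * (r - s) := by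
  set q := r2 c with hq
  have hqp : 0 < q := r2_pos h1 h2
  have hqs : q ^ 2 = c * (2 - 3 * c) / 2 := r2_sq h1 h2
  have hqle : q ≤ 1977 / 10000 := r2_le h1 h2
  have hK : (1 : ℝ) / 4 ≤ 2 * c - 1 := by linarith
  have e : g2 c s + q2 c s / (2 * s ^ 3) * (r - s) - g2 c r =
      (r - s) ^ 2 * (2 * q ^ 2 * (2 * c - 1) * ((2 * c - 1) * (2 * r + s) - 2 * (r * s)) -
        3 * r ^ 2 * s ^ 3) / (4 * r ^ 2 * s ^ 3) := by
    rw [hqs]
    unfold g2 q2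
    field_simp
    ring
  have h0 : 0 ≤ 2 * q ^ 2 * (2 * c - 1) * ((2 * c - 1) * (2 * r + s) - 2 * (r * s)) -
        3 * r ^ 2 * s ^ 3 := by
    have hrs : 0 < r * s := mul_pos hr hs
    -- 3 r² s³ ≤ 3 q² (r s) s
    have a1 : 3 * r ^ 2 * s ^ 3 ≤ 3 * q ^ 2 * (r * s * s) := by
      have : r * s ≤ q ^ 2 := by nlinarith
      have h5 : 0 < r * s * s := mul_pos hrs hs
      nlinarith
    have a2 : 3 * (r * s * s) ≤ 2 * (2 * c - 1) * ((2 * c - 1) * (2 * r + s) - 2 * (r * s)) := by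
      have b1 : r * s * s ≤ q * (r * s) := by nlinarith
      have b2 : r * s ≤ q * r := by nlinarith
      have b3 : r * s ≤ q * s := by nlinarith
      have b4 : 3 * (r * s) ≤ q * (2 * r + s) := by nlinarith
      have b5 : 4 * (2 * c - 1) * q + 3 * q ^ 2 ≤ 6 * (2 * c - 1) ^ 2 := by nlinarith
      have b6 : 3 * (r * s) * (4 * (2 * c - 1) + 3 * q) ≤
          q * (2 * r + s) * (4 * (2 * c - 1) + 3 * q) :=
        mul_le_mul_of_nonneg_right b4 (by linarith)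
      have b7 : (4 * (2 * c - 1) * q + 3 * q ^ 2) * (2 * r + s) ≤
          6 * (2 * c - 1) ^ 2 * (2 * r + s) := mul_le_mul_of_nonneg_right b5 (by linarith)
      nlinarith
    have hq2 : 0 < q ^ 2 := by positivity
    nlinarith
  have h3 : 0 ≤ g2 c s + q2 c s / (2 * s ^ 3) * (r - s) - g2 c r := by
    rw [e]
    apply div_nonneg (mul_nonneg (sq_nonneg _) h0)
    positivity
  linarith

/-- `s` satisfies the first order condition for the maximum of `g2 c` on `[r1 c, r2 c]` -/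
def Opt2 (c s : ℝ) : Prop :=
  (r1 c ≤ s ∧ s ≤ r2 c) ∧
    (q2 c s = 0 ∨ (s = r1 c ∧ q2 c s ≤ 0) ∨ (s = r2 c ∧ 0 ≤ q2 c s))

theorem m2_opt {c s r : ℝ} (h1 : 5 / 8 ≤ c) (h2 : c < 2 / 3) (hs : Opt2 c s) (hr : r1 c ≤ r)
    (hr2 : r ≤ r2 c) : g2 c r ≤ g2 c s := by
  obtain ⟨⟨ha, hb⟩, hc⟩ := hs
  have hrp : 0 < r := lt_of_lt_of_le (r1_pos h1 h2) hr
  have hsp : 0 < s := lt_of_lt_of_le (r1_pos h1 h2) ha
  have h := m2_conc h1 h2 hrp hsp hr2 hb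
  have h3 : q2 c s * (r - s) ≤ 0 := by
    rcases hc with h0 | ⟨he, hq⟩ | ⟨he, hq⟩
    · rw [h0]; simp
    · have : 0 ≤ r - s := by rw [he]; linarith
      nlinarith
    · have : r - s ≤ 0 := by rw [he]; linarith
      nlinarith
  have h4 : q2 c s / (2 * s ^ 3) * (r - s) = q2 c s * (r - s) / (2 * s ^ 3) := by ring
  have h5 : q2 c s * (r - s) / (2 * s ^ 3) ≤ 0 :=
    div_nonpos_of_nonpos_of_nonneg h3 (by positivity)
  linarith

theorem m2_ex {c : ℝ} (h1 : 5 / 8 ≤ c) (h2 : c < 2 / 3) : ∃ s, Opt2 c s := by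
  by_cases ha : q2 c (r1 c) ≤ 0
  · exact ⟨r1 c, ⟨le_refl _, r1_le_r2 h1 h2⟩, Or.inr (Or.inl ⟨rfl, ha⟩)⟩
  by_cases hb : 0 ≤ q2 c (r2 c)
  · exact ⟨r2 c, ⟨r1_le_r2 h1 h2, le_refl _⟩, Or.inr (Or.inr ⟨rfl, hb⟩)⟩
  push Not at ha hb
  have hcont : ContinuousOn (q2 c) (Set.Icc (r1 c) (r2 c)) := by
    unfold q2
    fun_prop
  have := intermediate_value_Icc' (r1_le_r2 h1 h2) hcont
  have h0 : (0 : ℝ) ∈ Set.Icc (q2 c (r2 c)) (q2 c (r1 c)) := ⟨hb.le, ha.le⟩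
  obtain ⟨s, hs, hs0⟩ := this h0
  exact ⟨s, hs, Or.inl hs0⟩

/-- the maximum of `g2 c` on `[r1 c, r2 c]` -/
noncomputable def M2 (c : ℝ) : ℝ := sSup (g2 c '' Set.Icc (r1 c) (r2 c))

theorem m2_great {c s : ℝ} (h1 : 5 / 8 ≤ c) (h2 : c < 2 / 3) (hs : Opt2 c s) :
    IsGreatest (g2 c '' Set.Icc (r1 c) (r2 c)) (g2 c s) := by
  refine ⟨⟨s, hs.1, rfl⟩, ?_⟩
  rintro _ ⟨r, hr, rfl⟩
  exact m2_opt h1 h2 hs hr.1 hr.2

theorem m2_M2 {c s : ℝ} (h1 : 5 / 8 ≤ c) (h2 : c < 2 / 3) (hs : Opt2 c s) : M2 c = g2 c s :=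
  (m2_great h1 h2 hs).csSup_eq

theorem m2_le {c r : ℝ} (h1 : 5 / 8 ≤ c) (h2 : c < 2 / 3) (hr : r1 c ≤ r) (hr2 : r ≤ r2 c) :
    g2 c r ≤ M2 c := by
  obtain ⟨s, hs⟩ := m2_ex h1 h2
  rw [m2_M2 h1 h2 hs]
  exact m2_opt h1 h2 hs hr hr2

/-- upper bound for the hub values -/
theorem m2_up {c y z R : ℝ} (h1 : 5 / 8 ≤ c) (h2 : c < 2 / 3) (hy : 0 ≤ y) (hz : 0 ≤ z)
    (hyz : y + z = 2 - 3 * c) (hR : 0 < R) (hR2 : R ^ 2 = (1 - c) * (2 - 3 * c) - y ^ 2 - z ^ 2) :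
    c * ((c - (y * (1 - c - y) / R - y)) * (c - (z * (1 - c - z) / R - z))) ≤ c * M2 c := by
  obtain ⟨ha, hb, he⟩ := m2_hub h1 h2 hy hz hyz hR hR2
  rw [he]
  exact mul_le_mul_of_nonneg_left (m2_le h1 h2 ha hb) (by linarith)

/-- every `r` in `[r1 c, r2 c]` is the hub mass of some `y, z` (positive if `r1 c < r`) -/
theorem m2_att {c r : ℝ} (h1 : 5 / 8 ≤ c) (h2 : c < 2 / 3) (hr : r1 c ≤ r) (hr2 : r ≤ r2 c) :
    ∃ y z : ℝ, 0 ≤ z ∧ z ≤ y ∧ y + z = 2 - 3 * c ∧ r ^ 2 = (1 - c) * (2 - 3 * c) - y ^ 2 - z ^ 2 ∧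
      (r1 c < r → 0 < z) := by
  have hrp : 0 < r := lt_of_lt_of_le (r1_pos h1 h2) hr
  have e1 := r1_sq h1 h2
  have e2 := r2_sq h1 h2
  have h1p := r1_pos h1 h2
  have hle1 : r1 c ^ 2 ≤ r ^ 2 := by nlinarith
  have hle2 : r ^ 2 ≤ r2 c ^ 2 := by nlinarith [r2_pos h1 h2]
  -- u² = (r2² - r²)/2
  set u := Real.sqrt ((r2 c ^ 2 - r ^ 2) / 2) with hu
  have hu2 : u ^ 2 = (r2 c ^ 2 - r ^ 2) / 2 := Real.sq_sqrt (by linarith)
  have hu0 : 0 ≤ u := Real.sqrt_nonneg _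
  have hus : u ^ 2 ≤ ((2 - 3 * c) / 2) ^ 2 := by nlinarith
  have hud : u ≤ (2 - 3 * c) / 2 := abs_le_of_sq_le_sq' hus (by linarith) |>.2
  refine ⟨(2 - 3 * c) / 2 + u, (2 - 3 * c) / 2 - u, by linarith, by linarith, by ring, ?_, ?_⟩
  · nlinarith
  · intro hlt
    have hlt1 : r1 c ^ 2 < r ^ 2 := by nlinarith
    have hus' : u ^ 2 < ((2 - 3 * c) / 2) ^ 2 := by nlinarith
    have := abs_lt_of_sq_lt_sq' hus' (by linarith) |>.2
    linarith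

/-- value at the left end: one overlap -/
theorem m2_v1 {c : ℝ} (h1 : 5 / 8 ≤ c) (h2 : c < 2 / 3) :
    c * g2 c (r1 c) = c ^ 2 * (2 - 2 * c - r1 c) := by
  have e1 := r1_sq h1 h2
  have hp := r1_pos h1 h2
  have h3 : g2 c (r1 c) = c * (2 - 2 * c - r1 c) := by
    have hne : r1 c ≠ 0 := hp.ne'
    have h4 : c * (2 - 3 * c) / r1 c ^ 2 = c / (2 * c - 1) := by
      rw [e1]
      have ha : (2 : ℝ) - 3 * c ≠ 0 := by linarith
      have hb : (2 : ℝ) * c - 1 ≠ 0 := by linarith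
      rw [div_eq_div_iff (mul_ne_zero ha hb) hb]
      ring
    unfold g2
    rw [h4]
    have hb : (2 : ℝ) * c - 1 ≠ 0 := by linarith
    field_simp
    nlinarith
  rw [h3]; ring

/-- value at the right end: symmetric overlaps -/
theorem m2_v2 {c : ℝ} (h1 : 5 / 8 ≤ c) (h2 : c < 2 / 3) :
    c * g2 c (r2 c) = c / 4 * (2 - c - r2 c) ^ 2 := by
  have e1 := r2_sq h1 h2
  have hp := r2_pos h1 h2
  have h4 : c * (2 - 3 * c) / r2 c ^ 2 = 2 := by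
    rw [e1]
    have ha : (2 : ℝ) - 3 * c ≠ 0 := by linarith
    have hb : c ≠ 0 := by linarith
    rw [div_eq_iff (div_ne_zero (mul_ne_zero hb ha) two_ne_zero)]
    ring
  unfold g2
  rw [h4]; ring

/-- the left end is the maximum iff `44 c³ - 72 c² + 42 c - 9 ≤ 0` -/
theorem m2_q1 {c : ℝ} (h1 : 5 / 8 ≤ c) (h2 : c < 2 / 3) :
    q2 c (r1 c) ≤ 0 ↔ 44 * c ^ 3 - 72 * c ^ 2 + 42 * c - 9 ≤ 0 := by
  have e1 := r1_sq h1 h2
  have hp := r1_pos h1 h2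
  set r := r1 c with hr
  have hq : q2 c r = r ^ 2 * (2 * ((2 * c - 1) * (3 - 4 * c) - 2 * c * r)) := by
    unfold q2
    have h3 : c * (2 - 3 * c) * (2 * c - 1) = c * r ^ 2 := by rw [e1]; ring
    rw [h3]
    have h4 : (2 * c - 1) * (3 - 4 * c) * 2 = 3 * r ^ 2 + c * (2 * c - 1) := by rw [e1]; ring
    linear_combination (-r ^ 2) * h4
  have hx : 0 < (2 * c - 1) * (3 - 4 * c) := mul_pos (by linarith) (by linarith)
  have hid : ((2 * c - 1) * (3 - 4 * c)) ^ 2 - (2 * c * r) ^ 2 =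
      (2 * c - 1) * (44 * c ^ 3 - 72 * c ^ 2 + 42 * c - 9) := by
    have : (2 * c * r) ^ 2 = 4 * c ^ 2 * r ^ 2 := by ring
    rw [this, e1]; ring
  have hcr : 0 < 2 * c * r := by positivity
  constructor
  · intro h
    rw [hq] at h
    have h5 : (2 * c - 1) * (3 - 4 * c) - 2 * c * r ≤ 0 := by
      by_contra hcon
      push Not at hcon
      have : 0 < r ^ 2 * (2 * ((2 * c - 1) * (3 - 4 * c) - 2 * c * r)) := by positivity
      linarith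
    have h6 : ((2 * c - 1) * (3 - 4 * c)) ^ 2 ≤ (2 * c * r) ^ 2 := by nlinarith
    have h7 : (2 * c - 1) * (44 * c ^ 3 - 72 * c ^ 2 + 42 * c - 9) ≤ 0 := by linarith
    by_contra hcon
    push Not at hcon
    have : 0 < (2 * c - 1) * (44 * c ^ 3 - 72 * c ^ 2 + 42 * c - 9) := mul_pos (by linarith) hcon
    linarith
  · intro h
    rw [hq]
    have h7 : (2 * c - 1) * (44 * c ^ 3 - 72 * c ^ 2 + 42 * c - 9) ≤ 0 :=
      mul_nonpos_of_nonneg_of_nonpos (by linarith) h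
    have h6 : ((2 * c - 1) * (3 - 4 * c)) ^ 2 ≤ (2 * c * r) ^ 2 := by linarith
    have h5 : (2 * c - 1) * (3 - 4 * c) ≤ 2 * c * r := abs_le_of_sq_le_sq' h6 hcr.le |>.2
    have h8 : 0 ≤ r ^ 2 := sq_nonneg r
    nlinarith

/-- the right end is the maximum iff `2 (7 c - 2) r_2 ≤ 7 c² - 10 c + 4` -/
theorem m2_q2 {c : ℝ} (h1 : 5 / 8 ≤ c) (h2 : c < 2 / 3) :
    0 ≤ q2 c (r2 c) ↔ 2 * (7 * c - 2) * r2 c ≤ 7 * c ^ 2 - 10 * c + 4 := by
  have e1 := r2_sq h1 h2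
  have hp := r2_pos h1 h2
  set r := r2 c with hr
  have hq : q2 c r = r ^ 2 / 2 * (7 * c ^ 2 - 10 * c + 4 - 2 * (7 * c - 2) * r) := by
    unfold q2
    have h3 : c * (2 - 3 * c) * (2 * c - 1) = 2 * r ^ 2 * (2 * c - 1) := by rw [e1]; ring
    rw [h3]
    have h4 : 3 * r ^ 2 = 3 * (c * (2 - 3 * c) / 2) := by rw [e1]
    linear_combination r ^ 2 * h4
  have hr2 : 0 < r ^ 2 / 2 := by positivity
  rw [hq]
  constructor
  · intro h
    by_contra hcon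
    push Not at hcon
    have : r ^ 2 / 2 * (7 * c ^ 2 - 10 * c + 4 - 2 * (7 * c - 2) * r) < 0 :=
      mul_neg_of_pos_of_neg hr2 (by linarith)
    linarith
  · intro h
    exact mul_nonneg hr2.le (by linarith)

end Pool.Agent.Work.MP_1ce445_hub2
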