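import Pool.Agent.Work.MP_1ce445_low.Interface3
import Pool.Agent.Work.MP_1ce445_low.VAL
import Pool.Agent.Work.MP_1ce445_low.HUB
import Pool.Agent.Work.MP_1ce445_hubg.HUBG
import Pool.Agent.Work.MP_1ce445_hub2.M2

/-!
MP_1ce445_co, `m = 2`: the lower bound `c * M2 c ≤ FF c`.
-/

namespace Pool.Agent.Work.MP_1ce445_hub2

open Finset Pool.Agent.Work.MP_1ce445_low

theorem m2_leFF (c v : ℝ) (h : HasVal (1 - c) v) : v ≤ FF c := by
  unfold FF
  exact le_csSup ⟨1, fun w hw => (Pool.Agent.Work.MP_1ce445_low.stmt_VAL _ _ hw).2⟩ h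

/-- every value `c * g2 c r`, `r` in `[r1 c, r2 c]`, is the value of a type system -/
theorem m2_hasval {c r : ℝ} (h1 : 5 / 8 ≤ c) (h2 : c < 2 / 3) (hr : r1 c ≤ r) (hr2 : r ≤ r2 c) :
    HasVal (1 - c) (c * g2 c r) := by
  rcases hr.lt_or_eq with hlt | heq
  · obtain ⟨y, z, hz, hzy, hyz, hR, hpos⟩ := m2_att h1 h2 hr hr2
    have hz' : 0 < z := hpos hlt
    have hy' : 0 < y := lt_of_lt_of_le hz' hzy
    have hrp : 0 < r := lt_of_lt_of_le (r1_pos h1 h2) hr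
    have hr3 : r ≤ 1977 / 10000 := hr2.trans (r2_le h1 h2)
    obtain ⟨_, _, he⟩ := m2_hub h1 h2 hy'.le hz hyz hrp hR
    have h := hubg 2 (1 - c) r ![y, z] (by norm_num) hrp (by linarith)
      (by intro i; fin_cases i <;> simp [hy', hz'])
      (by simp [Fin.sum_univ_two]; linarith)
      (by simp [Fin.sum_univ_two]; linarith)
      (by intro i; fin_cases i <;> simp <;> linarith)
    have h5 : (1 - (1 - c)) * ∏ i : Fin 2, (1 - (1 - c) -
        (![y, z] i * ((1 - c) - ![y, z] i) / r - ![y, z] i)) = c * g2 c r := by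
      rw [← he]
      simp [Fin.prod_univ_two]
    rwa [h5] at h
  · have h := stmt_HUB 2 (1 - c) (by norm_num) (by linarith) (by push_cast; linarith)
      (by push_cast; linarith)
    rw [← heq, m2_v1 h1 h2]
    have h5 : (1 - (1 - c)) ^ 2 * (((2 : ℕ) : ℝ) * (1 - c) -
        √(((((2 : ℕ) : ℝ) + 1) * (1 - c) - 1) * (1 - ((2 : ℕ) : ℝ) * (1 - c)))) =
        c ^ 2 * (2 - 2 * c - r1 c) := by
      unfold r1
      have e1 : ((((2 : ℕ) : ℝ) + 1) * (1 - c) - 1) * (1 - ((2 : ℕ) : ℝ) * (1 - c)) =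
          (2 - 3 * c) * (2 * c - 1) := by push_cast; ring
      rw [e1]
      push_cast
      ring
    rwa [h5] at h

/-- the lower bound -/
theorem m2_low {c : ℝ} (h1 : 5 / 8 ≤ c) (h2 : c < 2 / 3) : c * M2 c ≤ FF c := by
  obtain ⟨s, hs⟩ := m2_ex h1 h2
  rw [m2_M2 h1 h2 hs]
  exact m2_leFF c _ (m2_hasval h1 h2 hs.1.1 hs.1.2)

end Pool.Agent.Work.MP_1ce445_hub2
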